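import Pool.Agent.U409.OA.Stm3

/-!
# Project OA (helper409), package R2: the second recursion
-/

set_option autoImplicit false

namespace Pool.Agent.U263.OA

open Pool.Agent.U409.OA

section gen

variable {L R : Type} [CommRing R] {X : L → L → Bool → Bool → Bool → Bool → R}
  {K : L → Bool → Bool → R} {z : R} {φ : L → R}

theorem row_true (hX : ∀ a b, X a b = cw z (φ a * φ b)) (w : L) (v : List L) :
    ∀ k : Bool → List Bool → R, row X w v true (List.replicate v.length false) k =
      (v.map fun u => z ^ 2 - φ w * φ u).prod * k true (List.replicate v.length false) := by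
  induction v with
  | nil =>
    intro k
    simp [row]
  | cons u us ih =>
    intro k
    rw [List.length_cons, List.replicate_succ, row]
    simp only [Fintype.sum_bool, hX, cw, zero_mul, zero_add, add_zero]
    rw [ih, List.map_cons, List.prod_cons]
    ring

theorem Z_one (hX : ∀ a b, X a b = cw z (φ a * φ b)) (y : L) (v : List L) :
    ∃ Rf : R, ∀ s : Bool, Z X K (y :: v) (s :: List.replicate v.length false) =
      K y s true * ((v.map fun u => z ^ 2 - φ y * φ u).prod *
        Z X K v (List.replicate v.length false)) + K y s false * Rf := by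
  refine ⟨row X y v false (List.replicate v.length false)
    (fun t ss' => if t then Z X K v ss' else 0), fun s => ?_⟩
  rw [Z]
  simp only [Fintype.sum_bool]
  rw [row_true hX]
  simp

theorem Z_two (hX : ∀ a b, X a b = cw z (φ a * φ b)) (x y : L) (v : List L)
    (h : z ^ 2 * (φ x * φ y) = 1) :
    ∃ Rf : R, Z X K (x :: y :: v) (List.replicate (x :: y :: v).length false) =
      (v.map fun u => z ^ 2 - φ x * φ u).prod *
      (K x false false * (z - 2) * (K y true true * ((v.map fun u => z ^ 2 - φ y * φ u).prod *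
        Z X K v (List.replicate v.length false)) + K y true false * Rf) +
      K x false true * (z ^ 2 - φ x * φ y) * (K y false true *
        ((v.map fun u => z ^ 2 - φ y * φ u).prod * Z X K v (List.replicate v.length false)) +
        K y false false * Rf)) := by
  obtain ⟨Rf, hR⟩ := Z_one (K := K) hX y v
  refine ⟨Rf, ?_⟩
  have h0 : z ^ 2 * (φ x * φ y) - 1 = 0 := by rw [h, sub_self]
  rw [← hR true, ← hR false, List.length_cons, List.length_cons, List.replicate_succ,
    List.replicate_succ, Z]
  simp only [Fintype.sum_bool]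
  rw [row, row]
  simp only [Fintype.sum_bool, hX x y, cw, h0, zero_mul, zero_add, add_zero]
  rw [row_true hX, row_true hX]
  simp only [if_true]
  ring

end gen

theorem t_R2 : S_R2 := by
  intro z hz x y v hxy
  have hp : x * y = -z := by
    have h1 : z ^ 2 * (-z) = 1 := by
      have : z ^ 2 * (-z) = -(z * z ^ 2) := by ring
      rw [this, hz]
      have h2 : -(z * (z - 1)) = -(z ^ 2 - z) := by ring
      rw [h2, hz]
      ring
    have h3 : z ^ 2 ≠ 0 := by
      intro h0
      rw [h0, zero_mul] at hxy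
      exact zero_ne_one hxy
    exact mul_left_cancel₀ h3 (hxy.trans h1.symm)
  constructor
  · obtain ⟨Rf, h⟩ := Z_two (X := fun a b : ℂ => cw z (a * b)) (K := fun _ => k0)
      (z := z) (φ := fun a : ℂ => a) (fun a b => rfl) x y v hxy
    unfold G
    rw [h, List.prod_map_mul]
    simp only [k0]
    simp
    ring
  · have hmap : ∀ w : ℂ, (v.map fun u => (TrivSqZeroExt.inl z : DualNumber ℂ) ^ 2 -
        TrivSqZeroExt.inl w * TrivSqZeroExt.inl u).prod =
        TrivSqZeroExt.inl (v.map fun u => z ^ 2 - w * u).prod := by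
      intro w
      induction v with
      | nil => simp
      | cons u us ih =>
        rw [List.map_cons, List.prod_cons, ih, List.map_cons, List.prod_cons,
          TrivSqZeroExt.inl_mul, TrivSqZeroExt.inl_sub, TrivSqZeroExt.inl_pow,
          TrivSqZeroExt.inl_mul]
    obtain ⟨Rf, h⟩ := Z_two (L := ℂ) (R := DualNumber ℂ)
      (X := fun a b => cw (TrivSqZeroExt.inl z) (TrivSqZeroExt.inl a * TrivSqZeroExt.inl b))
      (K := fun w => ke (TrivSqZeroExt.inl z) DualNumber.eps (TrivSqZeroExt.inl w))
      (z := TrivSqZeroExt.inl z) (φ := fun a : ℂ => TrivSqZeroExt.inl a) (fun a b => rfl) x y v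
      (by rw [← TrivSqZeroExt.inl_mul, TrivSqZeroExt.inl_pow, ← TrivSqZeroExt.inl_mul, hxy,
        TrivSqZeroExt.inl_one])
    have hZ : ZD z (x :: y :: v) = TrivSqZeroExt.inl ((x + z ^ 2) * (y + z ^ 2) * ((z - 2) *
        ((v.map fun k => z ^ 2 - x * k).prod * (v.map fun k => z ^ 2 - y * k).prod))) * ZD z v := by
      unfold ZD
      rw [h]
      set E : DualNumber ℂ := Z (L := ℂ) (R := DualNumber ℂ)
        (fun a b => cw (TrivSqZeroExt.inl z) (TrivSqZeroExt.inl a * TrivSqZeroExt.inl b))
        (fun w => ke (TrivSqZeroExt.inl z) DualNumber.eps (TrivSqZeroExt.inl w))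
        v (List.replicate v.length false)
      rw [hmap x, hmap y]
      have k1 : ∀ w : ℂ, ke (TrivSqZeroExt.inl z : DualNumber ℂ) DualNumber.eps
          (TrivSqZeroExt.inl w) false false = TrivSqZeroExt.inl w + TrivSqZeroExt.inl z ^ 2 :=
        fun w => if_pos rfl
      have k2 : ∀ w : ℂ, ke (TrivSqZeroExt.inl z : DualNumber ℂ) DualNumber.eps
          (TrivSqZeroExt.inl w) true true = TrivSqZeroExt.inl w + TrivSqZeroExt.inl z ^ 2 :=
        fun w => if_pos rfl
      have k3 : ∀ w : ℂ, ke (TrivSqZeroExt.inl z : DualNumber ℂ) DualNumber.eps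
          (TrivSqZeroExt.inl w) true false = DualNumber.eps * TrivSqZeroExt.inl w := fun w => rfl
      have k4 : ∀ w : ℂ, ke (TrivSqZeroExt.inl z : DualNumber ℂ) DualNumber.eps
          (TrivSqZeroExt.inl w) false true = DualNumber.eps := fun w => rfl
      simp only [k1, k2, k3, k4]
      have he : (DualNumber.eps : DualNumber ℂ) * DualNumber.eps = 0 := DualNumber.eps_mul_eps
      have hbr : ((TrivSqZeroExt.inl x : DualNumber ℂ) + TrivSqZeroExt.inl z ^ 2) *
          (TrivSqZeroExt.inl z - 2) * TrivSqZeroExt.inl y +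
          (TrivSqZeroExt.inl z ^ 2 - TrivSqZeroExt.inl x * TrivSqZeroExt.inl y) *
          (TrivSqZeroExt.inl y + TrivSqZeroExt.inl z ^ 2) = 0 := by
        have e1 : (x + z ^ 2) * (z - 2) * y + (z ^ 2 - x * y) * (y + z ^ 2) = 0 := by
          have e2 : (x + z ^ 2) * (z - 2) * y + (z ^ 2 - x * y) * (y + z ^ 2) =
            (x * y) * (z - 2) + z ^ 2 * (z - 2) * y + (z ^ 2 - x * y) * (y + z ^ 2) := by ring
          rw [e2, hp, hz]
          have e3 : -z * (z - 2) + (z - 1) * (z - 2) * y + (z - 1 - -z) * (y + (z - 1)) =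
            (z ^ 2 - z + 1) * (1 + y) := by ring
          rw [e3, hz]
          ring
        have e4 : (2 : DualNumber ℂ) = TrivSqZeroExt.inl 2 := rfl
        rw [e4, TrivSqZeroExt.inl_pow, ← TrivSqZeroExt.inl_sub, ← TrivSqZeroExt.inl_add,
          ← TrivSqZeroExt.inl_mul, ← TrivSqZeroExt.inl_mul, ← TrivSqZeroExt.inl_mul,
          ← TrivSqZeroExt.inl_sub, ← TrivSqZeroExt.inl_add, ← TrivSqZeroExt.inl_mul,
          ← TrivSqZeroExt.inl_add, e1, TrivSqZeroExt.inl_zero]
      have e5 : (TrivSqZeroExt.inl ((x + z ^ 2) * (y + z ^ 2) * ((z - 2) *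
          ((v.map fun k => z ^ 2 - x * k).prod * (v.map fun k => z ^ 2 - y * k).prod))) :
          DualNumber ℂ) = (TrivSqZeroExt.inl x + TrivSqZeroExt.inl z ^ 2) *
          (TrivSqZeroExt.inl y + TrivSqZeroExt.inl z ^ 2) * ((TrivSqZeroExt.inl z - 2) *
          (TrivSqZeroExt.inl (v.map fun k => z ^ 2 - x * k).prod *
            TrivSqZeroExt.inl (v.map fun k => z ^ 2 - y * k).prod)) := by
        have e4 : (2 : DualNumber ℂ) = TrivSqZeroExt.inl 2 := rfl
        rw [e4]
        simp only [TrivSqZeroExt.inl_mul, TrivSqZeroExt.inl_add, TrivSqZeroExt.inl_sub,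
          TrivSqZeroExt.inl_pow]
      rw [e5]
      set P : DualNumber ℂ := TrivSqZeroExt.inl (v.map fun k => z ^ 2 - x * k).prod
      set Q : DualNumber ℂ := TrivSqZeroExt.inl (v.map fun k => z ^ 2 - y * k).prod
      set xx : DualNumber ℂ := TrivSqZeroExt.inl x
      set yy : DualNumber ℂ := TrivSqZeroExt.inl y
      set zz : DualNumber ℂ := TrivSqZeroExt.inl z
      set ee : DualNumber ℂ := DualNumber.eps
      linear_combination (P * ee * Rf) * hbr + (P * (zz ^ 2 - xx * yy) * (Q * E)) * he
    unfold A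
    rw [hZ, List.prod_map_mul]
    simp
end Pool.Agent.U263.OA
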